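import Pool.Agent.H887.BK.D2

set_option autoImplicit false
set_option linter.unusedSectionVars false
set_option linter.unusedVariables false

/-!
# The Frobenius matrix in terms of the fundamental matrix
-/

namespace Pool.Agent.H227.BKK

open MvPolynomial Pool.Agent.H425 Pool.Agent.H887.BK

variable {ι : Type} [Fintype ι] [DecidableEq ι] {L : Type} [CommRing L]

theorem kop_monomial (k : (ι →₀ ℕ) → (ι →₀ ℕ) → L) (N : ℕ) (δ u : ι →₀ ℕ) :
    kop k N δ (monomial u 1) = ∑ v ∈ DD ι N, monomial v (k (v + δ) (u + δ)) := by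
  have := (basisMonomials ι L).constr_basis L
    (fun u => ∑ v ∈ DD ι N, monomial v (k (v + δ) (u + δ))) u
  rw [coe_basisMonomials] at this
  exact this

theorem coeff_kop (k : (ι →₀ ℕ) → (ι →₀ ℕ) → L) (N : ℕ) (hvan : ∀ V U, N ≤ V.degree → k V U = 0)
    (δ u v : ι →₀ ℕ) (r : L) :
    coeff v (kop k N δ (monomial u r)) = k (v + δ) (u + δ) * r := by
  have h2 : (monomial u r : MvPolynomial ι L) = r • monomial u (1 : L) := by
    rw [smul_monomial, smul_eq_mul, mul_one]
  rw [h2, map_smul, coeff_smul, kop_monomial, coeff_sum, smul_eq_mul, mul_comm r]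
  congr 1
  simp only [coeff_monomial]
  rw [Finset.sum_ite_eq']
  split_ifs with h
  · rfl
  · rw [mem_DD, not_le] at h
    rw [hvan _ _ (by rw [map_add]; omega)]

theorem h_Kop : S_Kop := by
  intro ι _ _ L _ p d N hp c c' k hk i δ hδ hi P
  have hlin : (kop k N (δ + Finsupp.single i 1)) ∘ₗ (yop (form d c) i) =
      (p : L) • ((yop (form d c') i) ∘ₗ (kop k N δ)) := by
    refine linmap_ext fun u => ?_
    rw [LinearMap.comp_apply, LinearMap.smul_apply, LinearMap.comp_apply]
    ext v
    set V := v + (δ + Finsupp.single i 1) with hV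
    set U := u + δ with hU
    have hUi : U i = u i := by rw [hU, Finsupp.add_apply, hi, add_zero]
    have hVi : V i = v i + 1 := by
      rw [hV, Finsupp.add_apply, Finsupp.add_apply, hi, Finsupp.single_eq_same]
    have hcore := hk.core i V U
    rw [hUi, hVi] at hcore
    -- left hand side
    have hL : coeff v (kop k N (δ + Finsupp.single i 1) (yop (form d c) i (monomial u 1))) =
        ((u i : L) * k V U) + ∑ s ∈ Sd ι d, (s i : L) * c s * k V (U + s) := by
      rw [yop_apply, map_add, coeff_add, pderiv_monomial, coeff_kop k N hk.van]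
      congr 1
      · by_cases h : u i = 0
        · rw [h]; simp
        · rw [Setup.single_add_sub i u δ h]
          ring
      · rw [form, map_sum, Finset.sum_mul, map_sum, coeff_sum]
        refine Finset.sum_congr rfl fun s _ => ?_
        rw [pderiv_monomial, monomial_mul, coeff_kop k N hk.van]
        by_cases h : s i = 0
        · rw [h]; simp
        · have e1 : s - Finsupp.single i 1 + u + (δ + Finsupp.single i 1) = U + s := by
            have h1 : Finsupp.single i 1 ≤ s := by
              rw [Finsupp.single_le_iff]; omega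
            have h2 : ∀ y x u δ : ι →₀ ℕ, y + u + (δ + x) = (y + x) + u + δ := by
              intros; abel
            rw [hU, h2, tsub_add_cancel_of_le h1]
            abel
          rw [e1]
          ring
    -- right hand side
    have hR : coeff v ((p : L) • yop (form d c') i (kop k N δ (monomial u 1))) =
        ((p : L) * (((v i + 1 : ℕ) : L) * k V U)) +
        ((p : L) * ∑ s ∈ Sd ι d, (s i : L) * c' s * (if s ≤ V then k (V - s) U else 0)) := by
      rw [coeff_smul, smul_eq_mul, yop_apply, coeff_add, mul_add]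
      congr 1
      · rw [coeff_pderiv, coeff_kop k N hk.van]
        have e1 : v + Finsupp.single i 1 + δ = V := by rw [hV]; abel
        rw [e1]
        push_cast
        ring
      · rw [form, map_sum, Finset.sum_mul, coeff_sum]
        congr 1
        refine Finset.sum_congr rfl fun s _ => ?_
        rw [pderiv_monomial, coeff_monomial_mul']
        by_cases h : s i = 0
        · rw [h]; simp
        · have h1 : Finsupp.single i 1 ≤ s := by
            rw [Finsupp.single_le_iff]; omega
          have e2 : s - Finsupp.single i 1 ≤ v ↔ s ≤ v + Finsupp.single i 1 := tsub_le_iff_right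
          have e3 : s ≤ v + Finsupp.single i 1 → v - (s - Finsupp.single i 1) + δ = V - s := by
            intro hs
            ext j
            have h2 := hs j
            have h3 := h1 j
            simp only [hV, Finsupp.add_apply, Finsupp.tsub_apply] at h2 h3 ⊢
            omega
          by_cases h2 : s ≤ v + Finsupp.single i 1
          · have h3 : s ≤ V := h2.trans (by
              rw [hV]
              intro j
              simp only [Finsupp.add_apply]
              omega)
            rw [if_pos (e2.2 h2), if_pos h3, coeff_kop k N hk.van, e3 h2]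
            ring
          · rw [if_neg (fun h => h2 (e2.1 h))]
            split_ifs with h3
            · have h4 : k (V - s) U = 0 := by
                apply hk.low
                intro hle
                apply h2
                intro j
                have g1 := hle j
                have g2 := h3 j
                have g3 := hδ j
                by_contra hj
                simp only [hV, hU, Finsupp.add_apply, Finsupp.tsub_apply, Finsupp.smul_apply,
                  smul_eq_mul] at g1 g2 hj
                have g4 : v j + (δ j + (Finsupp.single i 1) j) - s j = 0 := by omega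
                rw [g4, mul_zero] at g1
                omega
              rw [h4]; ring
            · ring
    rw [hL, hR, hcore]
  have := LinearMap.congr_fun hlin P
  rwa [LinearMap.comp_apply, LinearMap.smul_apply, LinearMap.comp_apply] at this

theorem h_Core : S_Core := by
  intro ι _ _ p d _ K R L _ _ _ _ S π N c hp4 hd0 hN
  have h0 : (0 : ι →₀ ℕ) ∉ Sd ι d := by
    rw [mem_Sd, map_zero]
    omega
  have hd : ∀ s ∈ Sd ι d, s.degree ≤ d := fun s hs => ((mem_Sd d s).1 hs).le
  refine ⟨?_, ?_, ?_⟩
  · intro V U hV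
    obtain ⟨q, hq⟩ := (S.ker_spec (by omega) (Sd ι d) c h0 hd V U).1
    have h1 : N ≤ (p - 3) * V.degree := by
      have : 1 ≤ p - 3 := by omega
      calc N ≤ 1 * V.degree := by omega
        _ ≤ _ := Nat.mul_le_mul_right _ this
    change π (S.ker (Sd ι d) c V U) = 0
    rw [hq, map_mul, map_pow, ← Nat.add_sub_cancel' h1, pow_add, hN, zero_mul, zero_mul]
  · intro V U h
    rw [S.ker_eq_zero (by omega) (Sd ι d) c h0 hd V U h, map_zero]
  · intro i V U
    have h := congrArg π (S.ker_core (by omega) (Sd ι d) c h0 hd i V U)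
    simp only [map_add, map_mul, map_sum, map_natCast] at h
    have e1 : ∀ s ∈ Sd ι d, π (S.lam ^ (d - s.degree)) = 1 := by
      intro s hs
      rw [(mem_Sd d s).1 hs, Nat.sub_self, pow_zero, map_one]
    have e2 : ∑ s ∈ Sd ι d, (s i : L) * (π (c s) * π (S.lam ^ (d - s.degree))) *
        π (S.ker (Sd ι d) c V (U + s)) =
        ∑ s ∈ Sd ι d, (s i : L) * π (c s) * π (S.ker (Sd ι d) c V (U + s)) :=
      Finset.sum_congr rfl fun s hs => by rw [e1 s hs, mul_one]
    have e3 : ∑ s ∈ Sd ι d, (s i : L) * (π (c s ^ p) * π (S.lam ^ (d - s.degree))) *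
        π (if s ≤ V then S.ker (Sd ι d) c (V - s) U else 0) =
        ∑ s ∈ Sd ι d, (s i : L) * π (c s ^ p) *
          (if s ≤ V then π (S.ker (Sd ι d) c (V - s) U) else 0) :=
      Finset.sum_congr rfl fun s hs => by
        rw [e1 s hs, mul_one]
        split_ifs <;> simp
    rw [e2, e3] at h
    exact h

theorem form_fam (d : ℕ) (a : ι → L) (c : (ι →₀ ℕ) → L) (τ : L) :
    form d (fam d a c τ) = form d (fam d a c 0) + C τ * form d (mix d c) := by
  rw [form, form, form, Finset.mul_sum, ← Finset.sum_add_distrib]
  refine Finset.sum_congr rfl fun s _ => ?_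
  rw [C_mul_monomial, ← map_add]
  congr 1
  unfold fam mix
  split_ifs <;> simp

theorem pderiv_Eh (M : ℕ) (hM : 0 < M) (τ : L) (hτ : τ ^ M = 0) (g : MvPolynomial ι L) (i : ι) :
    pderiv i (Eh M τ g) = Eh M τ g * (C τ * pderiv i g) := by
  obtain ⟨n, rfl⟩ : ∃ n, M = n + 1 := ⟨M - 1, by omega⟩
  have h1 : Eh (n + 1) τ g * (C τ * pderiv i g) =
      ∑ m ∈ Finset.range n, C ((((n + 1).factorial / m.factorial : ℕ) : L) * τ ^ (m + 1)) *
        g ^ m * pderiv i g := by
    rw [Eh, Finset.sum_mul, Finset.sum_range_succ]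
    have h2 : C ((((n + 1).factorial / n.factorial : ℕ) : L) * τ ^ n) * g ^ n *
        (C τ * pderiv i g) = 0 := by
      have : C ((((n + 1).factorial / n.factorial : ℕ) : L) * τ ^ n) * g ^ n *
        (C τ * pderiv i g) = C ((((n + 1).factorial / n.factorial : ℕ) : L) * τ ^ (n + 1)) *
          g ^ n * pderiv i g := by
        rw [pow_succ τ n, ← mul_assoc (((n + 1).factorial / n.factorial : ℕ) : L), map_mul C _ τ]
        ring
      rw [this, hτ, mul_zero, map_zero, zero_mul, zero_mul]
    rw [h2, add_zero]
    refine Finset.sum_congr rfl fun m _ => ?_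
    rw [pow_succ τ m, ← mul_assoc (((n + 1).factorial / m.factorial : ℕ) : L), map_mul C _ τ]
    ring
  rw [h1, Eh, map_sum, Finset.sum_range_succ']
  have h3 : pderiv i (C ((((n + 1).factorial / Nat.factorial 0 : ℕ) : L) * τ ^ 0) * g ^ 0) = 0 := by
    rw [pow_zero, pow_zero, mul_one, mul_one, pderiv_C]
  rw [h3, add_zero]
  refine Finset.sum_congr rfl fun m hm => ?_
  rw [Finset.mem_range] at hm
  have h4 : (n + 1).factorial / (m + 1).factorial * (m + 1) = (n + 1).factorial / m.factorial := by
    have h5 : (m + 1).factorial ∣ (n + 1).factorial := Nat.factorial_dvd_factorial (by omega)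
    obtain ⟨q, hq⟩ := h5
    rw [hq, Nat.mul_div_cancel_left _ (Nat.factorial_pos _), Nat.factorial_succ]
    have h6 : (m + 1) * m.factorial * q = m.factorial * (q * (m + 1)) := by ring
    rw [h6, Nat.mul_div_cancel_left _ (Nat.factorial_pos _)]
  rw [pderiv_C_mul, pderiv_pow, Nat.add_sub_cancel]
  rw [← h4]
  push_cast
  simp only [map_mul, map_natCast, map_add, map_one]
  ring

theorem h_Eh : S_Eh := by
  intro ι _ _ L _ d M τ a c hM hτ i P
  rw [yop_apply, yop_apply, form_fam d a c τ, map_add, pderiv_C_mul, Derivation.leibniz,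
    pderiv_Eh M hM τ hτ]
  simp only [smul_eq_mul]
  ring

theorem one1_apply (i : ι) : (one1 : ι →₀ ℕ) i = 1 := by
  simp [one1, oneA]

theorem rd0_monomial (e : ℕ) (dinv : L) (b : ι → L) (w : ι →₀ ℕ) (u : ι → Fin e) :
    rd0 e dinv b (monomial w 1) u =
      if ∀ i, w i % (e + 1) = (u i : ℕ) then r0c (e + 1) dinv b w else 0 := by
  have := (basisMonomials ι L).constr_basis L
    (fun w (u : ι → Fin e) => if ∀ i, w i % (e + 1) = (u i : ℕ) then r0c (e + 1) dinv b w else 0) w
  rw [coe_basisMonomials] at this
  have h2 := congrFun this u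
  exact h2

theorem sum_monomials (P : MvPolynomial ι L) (k : (ι →₀ ℕ) → (ι →₀ ℕ) → L) (N : ℕ)
    (hvan : ∀ V U, N ≤ V.degree → k V U = 0) (δ u v : ι →₀ ℕ) :
    coeff v (kop k N δ (P * monomial u 1)) =
      ∑ s ∈ P.support, k (v + δ) (u + δ + s) * coeff s P := by
  conv_lhs => rw [P.as_sum]
  rw [Finset.sum_mul, map_sum, coeff_sum]
  refine Finset.sum_congr rfl fun s _ => ?_
  rw [monomial_mul, coeff_kop k N hvan, mul_one]
  congr 2
  abel

theorem h_KID (hEh : S_Eh) (hKop : S_Kop) (hR0 : S_R0) (hRdU : S_RdU) : S_KID := by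
  intro ι _ _ L _ p e N M τ dinv a b c kT k0 hp he hM hτ hdinv hab hT h0 hid hgr hD0 D'
  obtain ⟨D0, -⟩ := hD0
  obtain ⟨hr1, hr2⟩ := hR0 ι L e dinv a b c he hdinv hab
  have hτp : (τ ^ p) ^ M = 0 := by rw [← pow_mul, mul_comm, pow_mul, hτ, zero_pow hp.ne']
  set g : MvPolynomial ι L := form (e + 1) (mix (e + 1) c) with hg
  -- (i)
  have hi : ∀ u : ι →₀ ℕ, Eh M (τ ^ p) g * kop kT N one1 (monomial u 1) =
      kop k0 N one1 (Eh M τ g * monomial u 1) := by
    intro u
    ext v
    rw [sum_monomials _ k0 N h0.van, ← hid (v + one1) (u + one1), coeff_mul]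
    have hc : ∀ w, coeff w (kop kT N one1 (monomial u 1)) = kT (w + one1) (u + one1) := by
      intro w
      rw [coeff_kop kT N hT.van, mul_one]
    simp only [hc]
    symm
    have hinj : Function.Injective (fun x : (ι →₀ ℕ) × (ι →₀ ℕ) => (x.1, x.2 + (one1 : ι →₀ ℕ))) := by
      rintro ⟨x1, x2⟩ ⟨y1, y2⟩ h
      simp only [Prod.mk.injEq, add_left_inj] at h
      exact Prod.ext h.1 h.2
    have hsum : ∑ x ∈ Finset.HasAntidiagonal.antidiagonal v,
        coeff x.1 (Eh M (τ ^ p) g) * kT (x.2 + one1) (u + one1) =
        ∑ x ∈ (Finset.HasAntidiagonal.antidiagonal v).image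
          (fun x : (ι →₀ ℕ) × (ι →₀ ℕ) => (x.1, x.2 + (one1 : ι →₀ ℕ))),
          coeff x.1 (Eh M (τ ^ p) g) * kT x.2 (u + one1) := by
      rw [Finset.sum_image (fun x _ y _ h => hinj h)]
    rw [hsum]
    symm
    apply Finset.sum_subset
    · intro x hx
      rw [Finset.mem_image] at hx
      obtain ⟨y, hy, rfl⟩ := hx
      rw [Finset.HasAntidiagonal.mem_antidiagonal] at hy ⊢
      rw [← hy]
      simp only
      abel
    · intro x hx hx2
      rw [Finset.HasAntidiagonal.mem_antidiagonal] at hx
      have h1 : ¬ (one1 : ι →₀ ℕ) ≤ x.2 := by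
        intro hle
        apply hx2
        rw [Finset.mem_image]
        refine ⟨(x.1, x.2 - one1), ?_, ?_⟩
        · rw [Finset.HasAntidiagonal.mem_antidiagonal]
          simp only
          have h3 : x.1 + (x.2 - one1) + one1 = v + one1 := by
            rw [add_assoc, tsub_add_cancel_of_le hle, hx]
          exact add_right_cancel h3
        · simp only [tsub_add_cancel_of_le hle]
      have h2 : ¬ (u + one1 : ι →₀ ℕ) ≤ p • x.2 := by
        intro hle
        apply h1
        intro j
        have h3 := hle j
        simp only [Finsupp.add_apply, one1_apply, Finsupp.smul_apply, smul_eq_mul] at h3 ⊢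
        by_contra h4
        have h5 : x.2 j = 0 := by omega
        rw [h5, mul_zero] at h3
        omega
      rw [hT.low _ _ h2, mul_zero]
  -- (ii)
  have hker : ∀ (r : ι → Fin e) (i : ι) (P : MvPolynomial ι L),
      rd0 e dinv b (kop k0 N one1 (yop (form (e + 1) (fam (e + 1) a c 0)) i P)) r = 0 := by
    intro r i P
    have h1 : (one1 : ι →₀ ℕ) = (one1 - Finsupp.single i 1) + Finsupp.single i 1 := by
      rw [tsub_add_cancel_of_le]
      rw [Finsupp.single_le_iff, one1_apply]
    have h2 := hKop ι L p (e + 1) N hp (fam (e + 1) a c 0) (fam (e + 1) a c 0) k0 h0 i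
      (one1 - Finsupp.single i 1) (fun j => by
        rw [Finsupp.tsub_apply, one1_apply]
        omega) (by
        rw [Finsupp.tsub_apply, one1_apply, Finsupp.single_eq_same]) P
    rw [← h1] at h2
    rw [h2, map_smul, hr1, smul_zero]
    rfl
  have hD0rd : ∀ (P : MvPolynomial ι L) (u : ι → Fin e), D0.rd P u = rd0 e dinv b P u := by
    intro P u
    have h1 := hRdU ι L e _ D0 ((LinearMap.proj u).comp (rd0 e dinv b)) (by
      intro i P
      rw [LinearMap.comp_apply, hr1, map_zero]) P
    rw [LinearMap.comp_apply, LinearMap.proj_apply] at h1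
    rw [h1]
    rw [Finset.sum_eq_single u]
    · rw [LinearMap.comp_apply, LinearMap.proj_apply, hr2, Pi.single_eq_same, mul_one]
    · intro u' _ hu'
      rw [LinearMap.comp_apply, LinearMap.proj_apply, hr2, Pi.single_eq_of_ne (Ne.symm hu'), mul_zero]
    · intro h
      exact absurd (Finset.mem_univ u) h
  have hoff : ∀ (r u : ι → Fin e), r ≠ u →
      rd0 e dinv b (kop k0 N one1 (monomial (emb u) 1)) r = 0 := by
    intro r u hru
    rw [kop_monomial, map_sum, Finset.sum_apply]
    refine Finset.sum_eq_zero fun v _ => ?_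
    have h2 : (monomial v (k0 (v + one1) (emb u + one1)) : MvPolynomial ι L) =
        k0 (v + one1) (emb u + one1) • monomial v (1 : L) := by
      rw [smul_monomial, smul_eq_mul, mul_one]
    rw [h2, map_smul, Pi.smul_apply, rd0_monomial, smul_eq_mul]
    split_ifs with hv
    · rw [hgr, zero_mul]
      by_contra hcon
      push Not at hcon
      apply hru
      funext i
      apply Fin.ext
      have h3 := hcon i
      rw [Finsupp.add_apply, Finsupp.add_apply, one1_apply, emb_apply] at h3
      have h4 : v i ≡ (u i : ℕ) [MOD (e + 1)] := Nat.ModEq.add_right_cancel' 1 h3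
      have h5 : v i % (e + 1) = (u i : ℕ) % (e + 1) := h4
      rw [hv i, Nat.mod_eq_of_lt (by have := (u i).2; omega)] at h5
      exact h5
    · rw [mul_zero]
  have hii : ∀ (P : MvPolynomial ι L) (r : ι → Fin e), rd0 e dinv b (kop k0 N one1 P) r =
      rd0 e dinv b (kop k0 N one1 (monomial (emb r) 1)) r * rd0 e dinv b P r := by
    intro P r
    have h1 := hRdU ι L e _ D0 (((LinearMap.proj r).comp (rd0 e dinv b)).comp (kop k0 N one1)) (by
      intro i P
      rw [LinearMap.comp_apply, LinearMap.comp_apply, LinearMap.proj_apply]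
      exact hker r i P) P
    simp only [LinearMap.comp_apply, LinearMap.proj_apply] at h1
    rw [h1, Finset.sum_eq_single r]
    · rw [hD0rd]
      ring
    · intro u' _ hu'
      rw [hoff r u' (Ne.symm hu'), mul_zero]
    · intro h
      exact absurd (Finset.mem_univ r) h
  -- (iii)
  ext r u
  rw [Matrix.mul_apply, Matrix.diagonal_mul]
  have h1 := hRdU ι L e _ D' (((LinearMap.proj r).comp (rd0 e dinv b)).comp
    (LinearMap.mulLeft L (Eh M (τ ^ p) g))) (by
      intro i P
      rw [LinearMap.comp_apply, LinearMap.comp_apply, LinearMap.mulLeft_apply,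
        hEh ι L (e + 1) M (τ ^ p) a c hM hτp i P, hr1, map_zero])
    (kop kT N one1 (monomial (emb u) 1))
  simp only [LinearMap.comp_apply, LinearMap.proj_apply, LinearMap.mulLeft_apply] at h1
  have h2 : ∑ j, Yh e M dinv b (τ ^ p) g r j * Bm D' kT N j u =
      rd0 e dinv b (Eh M (τ ^ p) g * kop kT N one1 (monomial (emb u) 1)) r := by
    rw [h1]
    refine Finset.sum_congr rfl fun j _ => ?_
    rw [mul_comm]
    rfl
  rw [h2, hi, hii]
  rfl

end Pool.Agent.H227.BKK
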